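import Pool.Agent.H.MP_795b03_ag.Pos
import Pool.Agent.H.MP_795b03_ag.Neg

/-! MP_795b03_ag: a proper morphism of complex manifolds all of whose fibres have only Moishezon
irreducible components, but which is not locally Moishezon. -/

set_option autoImplicit false

open Topology Filter Set

namespace Pool.Agent.Results.MP_795b03_ag.NotLocallyMoishezon

open Pool.Agent.Moi

theorem result : ∃ (X S : Type) (_ : TopologicalSpace X) (_ : TopologicalSpace S)
    (_ : CxSpace X) (_ : CxSpace S) (g : X → S),
    IsSmooth X ∧ IsSmooth S ∧ IsHolMap g ∧ IsProperMap g ∧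
    (∀ (s : S) (Z : Set X), IsIrrComp univ (g ⁻¹' {s}) Z → IsMoishezon Z) ∧
    ¬ LocallyMoishezon g :=
  ⟨XX, Bs, inferInstance, inferInstance, inferInstance, inferInstance, gX, xx_smooth, bs_smooth,
    gX_hol, gX_proper, pos, not_locMoish⟩

end Pool.Agent.Results.MP_795b03_ag.NotLocallyMoishezon
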